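import Pool.Agent.R906.GMTree

/-!
MP_598c06_an, Q1: explicit graph matchbox manifolds at every finite level.
-/

namespace Pool.Agent.Results.MP_598c06_an.EveryFiniteLevel

open Pool.Agent.R906.GM

theorem result (m k : ℕ) : ∃ T : STree (m + 2),
    (∀ g, T.1 g = true ↔ (∃ i : ℤ, g = FreeGroup.of 0 ^ i) ∨
      ∃ i : ℕ, (Nat.digits 2 i).sum + 1 = k ∧ g = FreeGroup.of 0 ^ i * FreeGroup.of 1) ∧
    IsLevel k (closure (leaf T)) ∧ ∀ j, IsLevel j (closure (leaf T)) → j = k := by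
  refine ⟨Phi (Aset k), fun g => ?_, ?_, fun j hj => ?_⟩
  · rw [Phi_val, tz_iff]
    refine or_congr Iff.rfl ⟨?_, ?_⟩
    · rintro ⟨i, hi, rfl⟩
      have h1 : 0 ≤ i ∧ ds i.toNat + 1 = k := by simpa [Aset] using hi
      refine ⟨i.toNat, h1.2, ?_⟩
      rw [← zpow_natCast, Int.toNat_of_nonneg h1.1]
      rfl
    · rintro ⟨i, hi, rfl⟩
      refine ⟨i, ?_, by rw [zpow_natCast]; rfl⟩
      rw [Aset_nat]
      exact decide_eq_true hi
  · rw [← Mk_eq]; exact Mk_level k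
  · rw [← Mk_eq] at hj
    exact level_unique j k _ hj (Mk_level k)

end Pool.Agent.Results.MP_598c06_an.EveryFiniteLevel
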